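import Pool.Agent.ASO.Stmts7
import Pool.Agent.Helper32_AT2.FST
import Pool.Agent.Helper47_PP.Osi
import Pool.Agent.Helper63_PP.Smt
import Pool.Agent.Helper74_PP.Brt
import Pool.Agent.Helper50_PP.Bid

/-!
# Squad ASO, row ONB: a group with a normal `ℓ`-subgroup which contains its centraliser has one block
-/

open scoped BigOperators

noncomputable section

namespace Pool.Agent.PP.SO.H86

open Pool.Agent.Helper51_AWC Pool.Agent.Helper79_WRA Pool.Agent.PP Pool.Agent.PP.KF
open Pool.Agent.PP.K9 Pool.Agent.PP.K9.H97 Pool.Agent.PP.H75 Pool.Agent.PP.T3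

attribute [local instance] Ideal.Quotient.field

section one

variable {F A : Type} [Field F] [Group A]

theorem one1_one : (one1 : A → F) 1 = 1 := by
  unfold one1
  rw [if_pos rfl]

theorem one1_ne {x : A} (hx : x ≠ 1) : (one1 : A → F) x = 0 := by
  unfold one1
  rw [if_neg hx]

theorem one1_cl : IsCl (one1 : A → F) := by
  intro x y
  by_cases hx : x = 1
  · subst hx
    rw [mul_one, mul_inv_cancel]
  · have h1 : y * x * y⁻¹ ≠ 1 := by
      intro h
      apply hx
      have h2 : x = y⁻¹ * (y * x * y⁻¹) * y := by group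
      rw [h2, h]
      group
    rw [one1_ne hx, one1_ne h1]

theorem one1_mul (b : A → F) : mulF one1 b = b := by
  funext x
  unfold mulF
  rw [finsum_eq_single _ (1 : A)]
  · rw [one1_one, inv_one, one_mul, one_mul]
  · intro t ht
    rw [one1_ne ht, zero_mul]

theorem one1_idem : IsIdem (one1 : A → F) := ⟨one1_cl, one1_mul _⟩

theorem one1_ne_zero : (one1 : A → F) ≠ 0 := by
  intro h
  have h1 := congrFun h (1 : A)
  rw [one1_one] at h1
  exact one_ne_zero h1

/-- an idempotent which vanishes at all elements `≠ 1` -/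
theorem idem_dich {g : A → F} (hg : IsIdem g) (h0 : ∀ x, x ≠ 1 → g x = 0) :
    g = 0 ∨ g = one1 := by
  have h1 := congrFun hg.2 (1 : A)
  unfold mulF at h1
  rw [finsum_eq_single _ (1 : A) (fun t ht => by rw [h0 t ht, zero_mul]), inv_one, one_mul] at h1
  have h2 : g 1 * (g 1 - 1) = 0 := by
    rw [mul_sub, h1, mul_one, sub_self]
  rcases mul_eq_zero.1 h2 with h | h
  · left
    funext x
    by_cases hx : x = 1
    · rw [hx, h]
      rfl
    · rw [h0 x hx]
      rfl
  · right
    funext x
    by_cases hx : x = 1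
    · rw [hx, one1_one, sub_eq_zero.1 h]
    · rw [h0 x hx, one1_ne hx]

end one

/-- row ONB -/
theorem onb : OnbStmt := by
  intro ℓ _ M _ hM A _ _ P hP hPp hCP
  have hF : GoodF ℓ (FF M) := H50.fld ℓ Fact.out M hM
  have hdich : ∀ g : A → FF M, IsIdem g → g = 0 ∨ g = one1 := by
    intro g hg
    refine idem_dich hg fun x hx => ?_
    have hix : Ix (⊤ : Subgroup A) g := by
      refine ⟨fun x hx => absurd (Subgroup.mem_top x) hx, ?_, ?_⟩
      · intro x y
        exact hg.1 x y
      · rw [← H75.mulF_res (⊤ : Subgroup A) g (fun x hx => absurd (Subgroup.mem_top x) hx), hg.2]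
    have hnorm : (⊤ : Subgroup A) ≤ Subgroup.normalizer (P : Set A) := by
      rw [Subgroup.normalizer_eq_top]
    have hbr : br P g = g := T2.H32.supp_cent hF hPp le_top le_top hnorm hix
    by_contra hgx
    have hxC : x ∈ Subgroup.centralizer (P : Set A) := by
      by_contra h
      apply hgx
      rw [← hbr]
      exact br_out g h
    have hxP : x ∈ P := hCP hxC
    have hreg : Reg ℓ x := by
      by_contra h
      exact hgx (H47O.osi H63.sma H74.rgl ℓ (FF M) hF A g hg x h)
    obtain ⟨n, hn⟩ := hPp ⟨x, hxP⟩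
    have hn' : x ^ ℓ ^ n = 1 := by
      have h1 := congrArg Subtype.val hn
      exact h1
    apply hx
    have h2 : orderOf x ∣ ℓ ^ n := orderOf_dvd_of_pow_eq_one hn'
    have h3 : (orderOf x).Coprime (ℓ ^ n) := Nat.Coprime.pow_right n hreg
    have h4 : orderOf x = 1 := Nat.Coprime.eq_one_of_dvd h3 h2
    exact orderOf_eq_one_iff.1 h4
  have hblk : IsBlk (one1 : A → FF M) := by
    refine ⟨one1_idem, one1_ne_zero, fun g hg => ?_⟩
    rcases hdich g hg with h | h
    · right
      rw [one1_mul, h]
    · left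
      rw [one1_mul, h]
  refine ⟨hblk, ?_⟩
  ext χ
  constructor
  · intro h
    exact h.1
  · intro hχ
    refine ⟨hχ, ?_⟩
    obtain ⟨e, he, h1⟩ := H50.exists_block (M := M) hχ
    rcases hdich e he.1 with h | h
    · exact absurd h he.2.1
    · rw [← h]
      exact h1

end Pool.Agent.PP.SO.H86
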